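import Pool.Agent.L7h32.AA.Stm

set_option autoImplicit false

/-!
# Project AA: a smooth left inverse of a smooth embedding (`S_EXT`)
-/

open Set Filter Topology Metric
open scoped ContDiff Manifold

namespace Pool.Agent.L7h26.AA

open Pool.Agent.L7h32.AA

section

variable {E F : Type} [NormedAddCommGroup E] [NormedSpace ℝ E] [FiniteDimensional ℝ E]
    [NormedAddCommGroup F] [NormedSpace ℝ F] [FiniteDimensional ℝ F]

/-- inverse function theorem with smoothness in a neighbourhood -/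
theorem loc_inv {G : E → E} {U : Set E} (hU : IsOpen U) (hG : ContDiffOn ℝ ∞ G U) {x0 : E}
    (hx0 : x0 ∈ U) {A : E ≃L[ℝ] E} (hA : HasFDerivAt G (A : E →L[ℝ] E) x0) :
    ∃ (S W : Set E) (q : E → E), IsOpen S ∧ x0 ∈ S ∧ S ⊆ U ∧ IsOpen W ∧ ContDiffOn ℝ ∞ q W ∧
      ∀ x ∈ S, G x ∈ W ∧ q (G x) = x := by
  have hGx : ∀ x ∈ U, ContDiffAt ℝ ∞ G x := fun x hx => hG.contDiffAt (hU.mem_nhds hx)
  let e := (hGx x0 hx0).toOpenPartialHomeomorph G hA (by simp)
  have he0 : x0 ∈ e.source := (hGx x0 hx0).mem_toOpenPartialHomeomorph_source hA (by simp)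
  have hcont : ContinuousOn (fderiv ℝ G) U := hG.continuousOn_fderiv_of_isOpen hU (by simp)
  let D : Set E := U ∩ fderiv ℝ G ⁻¹' Set.range ((↑) : (E ≃L[ℝ] E) → (E →L[ℝ] E))
  have hD : IsOpen D := hcont.isOpen_inter_preimage hU ContinuousLinearEquiv.isOpen
  have hx0D : x0 ∈ D := ⟨hx0, A, hA.fderiv.symm⟩
  refine ⟨e.source ∩ D, e.target ∩ e.symm ⁻¹' D, e.symm, e.open_source.inter hD, ⟨he0, hx0D⟩,
    fun x hx => hx.2.1, e.isOpen_inter_preimage_symm hD, ?_, ?_⟩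
  · rintro y ⟨hy, hyU, B, hB⟩
    refine ContDiffAt.contDiffWithinAt ?_
    refine e.contDiffAt_symm (f₀' := B) hy ?_ (hGx _ hyU)
    rw [hB]
    exact ((hGx _ hyU).differentiableAt (by simp)).hasFDerivAt
  · rintro x ⟨hx, hxD⟩
    have h1 : e.symm (e x) = x := e.left_inv hx
    refine ⟨⟨e.map_source hx, ?_⟩, h1⟩
    show e.symm (e x) ∈ D
    rw [h1]
    exact hxD

/-- the derivative of `(f ∘ N, 1 - N)` is injective -/
theorem inj_deriv {K U : Set E} {N : E → E} {f : E → F} (hR : Ret K U N) (hE : Emb K U N f)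
    {x0 : E} (hx0 : x0 ∈ K) {v : E} (h1 : fderiv ℝ (fun x => f (N x)) x0 v = 0)
    (h2 : v - fderiv ℝ N x0 v = 0) : v = 0 := by
  have hx0U : x0 ∈ U := hR.sub hx0
  obtain ⟨c, hc, hlow⟩ := hE.low
  have hN := ((hR.smooth.contDiffAt (hR.opn.mem_nhds hx0U)).differentiableAt (by simp)).hasFDerivAt
  have hf := ((hE.smooth.contDiffAt (hR.opn.mem_nhds hx0U)).differentiableAt
    (by simp)).hasFDerivAt
  have hline : HasDerivAt (fun t : ℝ => x0 + t • v) v 0 := by
    have := ((hasDerivAt_id (0 : ℝ)).smul_const v).const_add x0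
    simpa using this
  have hN' : HasDerivAt (fun t : ℝ => N (x0 + t • v)) (fderiv ℝ N x0 v) 0 := by
    refine HasFDerivAt.comp_hasDerivAt (0 : ℝ) (l := N) (l' := fderiv ℝ N x0) ?_ hline
    simpa using hN
  have hf' : HasDerivAt (fun t : ℝ => f (N (x0 + t • v)))
      (fderiv ℝ (fun x => f (N x)) x0 v) 0 := by
    refine HasFDerivAt.comp_hasDerivAt (0 : ℝ) (l := fun x => f (N x))
      (l' := fderiv ℝ (fun x => f (N x)) x0) ?_ hline
    simpa using hf
  have t1 := (hN'.tendsto_slope_zero).norm.const_mul c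
  have t2 := (hf'.tendsto_slope_zero).norm
  have hev : ∀ᶠ t : ℝ in 𝓝[≠] 0, x0 + t • v ∈ U := by
    refine Filter.Eventually.filter_mono nhdsWithin_le_nhds ?_
    refine hline.continuousAt.eventually_mem ?_
    simpa using hR.opn.mem_nhds hx0U
  have hle : c * ‖fderiv ℝ N x0 v‖ ≤ ‖fderiv ℝ (fun x => f (N x)) x0 v‖ := by
    refine le_of_tendsto_of_tendsto t1 t2 ?_
    filter_upwards [hev] with t ht
    rw [norm_smul, norm_smul]
    have h3 := hlow (N (x0 + t • v)) (hR.maps _ ht) (N x0) (hR.maps _ hx0U)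
    have e1 : N (x0 + (0 + t) • v) = N (x0 + t • v) := by rw [zero_add]
    have e2 : N (x0 + (0 : ℝ) • v) = N x0 := by rw [zero_smul, add_zero]
    simp only [e1, e2]
    calc c * (‖t⁻¹‖ * ‖N (x0 + t • v) - N x0‖) = ‖t⁻¹‖ * (c * ‖N (x0 + t • v) - N x0‖) := by ring
      _ ≤ ‖t⁻¹‖ * ‖f (N (x0 + t • v)) - f (N x0)‖ := mul_le_mul_of_nonneg_left h3 (norm_nonneg _)
  rw [h1, norm_zero] at hle
  have h4 : ‖fderiv ℝ N x0 v‖ = 0 := le_antisymm (by
    by_contra h
    rw [not_le] at h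
    exact absurd hle (not_le.2 (mul_pos hc h))) (norm_nonneg _)
  rw [norm_eq_zero.1 h4, sub_zero] at h2
  exact h2

theorem emb_cont {K U : Set E} {N : E → E} {f : E → F} (hR : Ret K U N)
    (hE : ContDiffOn ℝ ∞ (fun x => f (N x)) U) : ContinuousOn f K := by
  have h1 := hE.continuousOn.mono hR.sub
  refine h1.congr fun x hx => ?_
  show f x = f (N x)
  rw [hR.fix x hx]

/-- local left inverses near the image -/
theorem loc_left {K U : Set E} {N : E → E} {f : E → F} (hR : Ret K U N) (hE : Emb K U N f)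
    {x0 : E} (hx0 : x0 ∈ K) : ∃ V ∈ 𝓝 (f x0), ∃ g : F → E, ContDiffOn ℝ ∞ g V ∧
      ∀ y ∈ V, ∀ x ∈ K, f x = y → y ∈ V → g y = x := by
  have hx0U : x0 ∈ U := hR.sub hx0
  obtain ⟨c, hc, hlow⟩ := hE.low
  let Ψ : E → F × E := fun x => (f (N x), x - N x)
  have hΨ : ContDiffOn ℝ ∞ Ψ U := hE.smooth.prodMk (contDiffOn_id.sub hR.smooth)
  have hd1 := ((hR.smooth.contDiffAt (hR.opn.mem_nhds hx0U)).differentiableAt (by simp)).hasFDerivAt
  have hd2 := ((hE.smooth.contDiffAt (hR.opn.mem_nhds hx0U)).differentiableAt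
    (by simp)).hasFDerivAt
  let D : E →L[ℝ] F × E := (fderiv ℝ (fun x => f (N x)) x0).prod
    (ContinuousLinearMap.id ℝ E - fderiv ℝ N x0)
  have hD : HasFDerivAt Ψ D x0 := hd2.prodMk ((hasFDerivAt_id x0).sub hd1)
  have hker : LinearMap.ker (D : E →ₗ[ℝ] F × E) = ⊥ := by
    rw [LinearMap.ker_eq_bot']
    intro v hv
    have h1 : (fderiv ℝ (fun x => f (N x)) x0 v, v - fderiv ℝ N x0 v) = ((0 : F), (0 : E)) := hv
    exact inj_deriv hR hE hx0 (congrArg Prod.fst h1) (congrArg Prod.snd h1)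
  obtain ⟨P0, hP0⟩ := LinearMap.exists_leftInverse_of_injective (D : E →ₗ[ℝ] F × E) hker
  let P : F × E →L[ℝ] E := LinearMap.toContinuousLinearMap P0
  have hPD : ∀ v, P (D v) = v := fun v => LinearMap.congr_fun hP0 v
  have hG : ContDiffOn ℝ ∞ (fun x => P (Ψ x)) U := P.contDiff.comp_contDiffOn hΨ
  have hA : HasFDerivAt (fun x => P (Ψ x))
      ((ContinuousLinearEquiv.refl ℝ E : E ≃L[ℝ] E) : E →L[ℝ] E) x0 := by
    have h1 := P.hasFDerivAt.comp x0 hD
    have h2 : P.comp D = ((ContinuousLinearEquiv.refl ℝ E : E ≃L[ℝ] E) : E →L[ℝ] E) := by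
      ext v
      exact hPD v
    rw [← h2]
    exact h1
  obtain ⟨S, W, q, hS, hxS, hSU, hW, hq, hqG⟩ := loc_inv hR.opn hG hx0U hA
  obtain ⟨ρ, hρ, hball⟩ := Metric.isOpen_iff.1 hS x0 hxS
  let T : F → E := fun y => P (y, 0)
  have hT : ContDiff ℝ ∞ T := P.contDiff.comp (contDiff_id.prodMk contDiff_const)
  have hΨK : ∀ x ∈ K, P (Ψ x) = T (f x) := by
    intro x hx
    show P (f (N x), x - N x) = P (f x, 0)
    rw [hR.fix x hx, sub_self]
  have hT0 : T (f x0) ∈ W := by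
    rw [← hΨK x0 hx0]
    exact (hqG x0 hxS).1
  refine ⟨T ⁻¹' W ∩ ball (f x0) (c * ρ), ?_, fun y => q (T y), ?_, ?_⟩
  · refine inter_mem ((hW.preimage hT.continuous).mem_nhds hT0) ?_
    exact ball_mem_nhds _ (mul_pos hc hρ)
  · exact hq.comp hT.contDiffOn fun y hy => hy.1
  · intro y hy x hx hxy _
    have h1 : x ∈ S := by
      refine hball ?_
      rw [mem_ball, dist_eq_norm]
      have h2 := hy.2
      rw [mem_ball, dist_eq_norm, ← hxy] at h2
      have h3 := hlow x hx x0 hx0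
      exact lt_of_mul_lt_mul_left (h3.trans_lt h2) hc.le
    show q (T y) = x
    rw [← hxy, ← hΨK x hx]
    exact (hqG x h1).2

end

/-- **S_EXT.** -/
theorem s_EXT : S_EXT := by
  intro E F _ _ _ _ _ _ K U N f hR hE
  have hfc : IsCompact (f '' K) := hR.cpt.image_of_continuousOn (emb_cont hR hE.smooth)
  obtain ⟨g, hg⟩ := exists_contMDiffMap_forall_mem_convex_of_local (n := ⊤) 𝓘(ℝ, F) (F := E)
    (t := fun y : F => {z : E | ∀ x ∈ K, f x = y → z = x}) (by
      intro y z hz z' hz' a b ha hb hab x hx hxy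
      rw [hz x hx hxy, hz' x hx hxy, ← add_smul, hab, one_smul]) (by
      intro y
      by_cases hy : y ∈ f '' K
      · obtain ⟨x0, hx0, rfl⟩ := hy
        obtain ⟨V, hV, g, hg1, hg2⟩ := loc_left hR hE hx0
        exact ⟨V, hV, g, contMDiffOn_iff_contDiffOn.2 hg1, fun y hy x hx hxy => hg2 y hy x hx hxy hy⟩
      · refine ⟨(f '' K)ᶜ, hfc.isClosed.isOpen_compl.mem_nhds hy, fun _ => 0,
          contMDiffOn_const, fun z hz x hx hxz => ?_⟩
        exact absurd ⟨x, hx, hxz⟩ hz)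
  refine ⟨g, ?_, fun x hx => hg (f x) x hx rfl⟩
  have := g.contMDiff
  rw [contMDiff_iff_contDiff] at this
  exact this

end Pool.Agent.L7h26.AA
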