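import Pool.Agent.L7h26.AA.Step

set_option autoImplicit false

/-!
# Project AA: isotopy extension (`S_STEP → S_PATH`)
-/

open Set Filter Topology Metric
open scoped ContDiff Manifold

namespace Pool.Agent.L7h26.AA

open Pool.Agent.L7h32.AA

theorem CDiff.refl {F : Type} [NormedAddCommGroup F] [NormedSpace ℝ F] : CDiff (fun y : F => y) :=
  ⟨contDiff_id, fun y => y, contDiff_id, fun _ => rfl, fun _ => rfl, ∅, isCompact_empty,
    fun _ _ => rfl⟩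

theorem CDiff.trans {F : Type} [NormedAddCommGroup F] [NormedSpace ℝ F] {G H : F → F}
    (hG : CDiff G) (hH : CDiff H) : CDiff (fun y => H (G y)) := by
  obtain ⟨g1, G', g2, g3, g4, C, hC, g5⟩ := hG
  obtain ⟨h1, H', h2, h3, h4, D, hD, h5⟩ := hH
  refine ⟨h1.comp g1, fun y => G' (H' y), g2.comp h2, fun x => ?_, fun x => ?_, C ∪ D,
    hC.union hD, fun x hx => ?_⟩
  · show G' (H' (H (G x))) = x
    rw [h3, g3]
  · show H (G (G' (H' x))) = x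
    rw [g4, h4]
  · rw [Set.mem_union, not_or] at hx
    show H (G x) = x
    rw [g5 x hx.1, h5 x hx.2]

theorem CDiff.symm {F : Type} [NormedAddCommGroup F] [NormedSpace ℝ F] {G : F → F}
    (hG : CDiff G) : ∃ G', CDiff G' ∧ (∀ x, G' (G x) = x) ∧ ∀ x, G (G' x) = x := by
  obtain ⟨g1, G', g2, g3, g4, C, hC, g5⟩ := hG
  refine ⟨G', ⟨g2, G, g1, g4, g3, C, hC, fun x hx => ?_⟩, g3, g4⟩
  have := congrArg G' (g5 x hx)
  rw [g3] at this
  exact this.symm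

/-- **S_PATH.** -/
theorem s_PATH (hSTEP : S_STEP) : S_PATH := by
  intro E F _ _ _ _ _ _ K U N f hR hE hcont
  let r : ℝ → ℝ → Prop := fun s s' => ∃ G : F → F, CDiff G ∧ ∀ x ∈ K, G (f s x) = f s' x
  have r0 : ∀ s, r s s := fun s => ⟨fun y => y, CDiff.refl, fun _ _ => rfl⟩
  have rsymm : ∀ s s', r s s' → r s' s := by
    rintro s s' ⟨G, hG, h⟩
    obtain ⟨G', hG', h1, h2⟩ := CDiff.symm hG
    exact ⟨G', hG', fun x hx => by rw [← h x hx, h1]⟩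
  have rtrans : ∀ s s' s'', r s s' → r s' s'' → r s s'' := by
    rintro s s' s'' ⟨G, hG, h⟩ ⟨G', hG', h'⟩
    exact ⟨_, CDiff.trans hG hG', fun x hx => by rw [h x hx, h' x hx]⟩
  have hloc : ∀ s ∈ Icc (0 : ℝ) 1, ∃ τ : ℝ, 0 < τ ∧ ∀ s' ∈ Icc (0 : ℝ) 1, |s' - s| < τ →
      r s s' := by
    intro s hs
    obtain ⟨δ, hδ, h⟩ := hSTEP E F K U N (f s) hR (hE s hs)
    obtain ⟨τ, hτ, h'⟩ := hcont s hs δ hδ
    exact ⟨τ, hτ, fun s' hs' hss => h (f s') (hE s' hs').smooth (h' s' hs' hss)⟩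
  -- the set of all `s` with `r 0 s`
  have h0 : (0 : ℝ) ∈ Icc (0 : ℝ) 1 := ⟨le_rfl, zero_le_one⟩
  have h1 : (1 : ℝ) ∈ Icc (0 : ℝ) 1 := ⟨zero_le_one, le_rfl⟩
  by_contra hcon
  have hcon' : ¬ r 0 1 := hcon
  let S : Set ℝ := {s | s ∈ Icc (0 : ℝ) 1 ∧ r 0 s}
  have hne : S.Nonempty := ⟨0, h0, r0 0⟩
  have hbdd : BddAbove S := ⟨1, fun s hs => hs.1.2⟩
  let m := sSup S
  have hm : m ∈ Icc (0 : ℝ) 1 := ⟨le_csSup hbdd ⟨h0, r0 0⟩, csSup_le hne fun s hs => hs.1.2⟩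
  obtain ⟨τ, hτ, hτ'⟩ := hloc m hm
  obtain ⟨s, hs, hsm⟩ := exists_lt_of_lt_csSup hne (show m - τ < sSup S from sub_lt_self _ hτ)
  have hsle : s ≤ m := le_csSup hbdd hs
  have hrm : r 0 m := by
    refine rtrans 0 s m hs.2 (rsymm _ _ (hτ' s hs.1 ?_))
    rw [abs_lt]
    constructor <;> linarith
  have hm1 : m < 1 := lt_of_le_of_ne hm.2 fun h => hcon' (h ▸ hrm)
  have hs' : min 1 (m + τ / 2) ∈ S := by
    have h2 : m ≤ min 1 (m + τ / 2) := le_min hm.2 (by linarith)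
    refine ⟨⟨hm.1.trans h2, min_le_left _ _⟩, rtrans 0 m _ hrm (hτ' _ ⟨hm.1.trans h2,
      min_le_left _ _⟩ ?_)⟩
    have h3 : min 1 (m + τ / 2) ≤ m + τ / 2 := min_le_right _ _
    rw [abs_lt]
    constructor <;> linarith
  have h5 : min 1 (m + τ / 2) ≤ m := le_csSup hbdd hs'
  have h6 : m < min 1 (m + τ / 2) := lt_min hm1 (by linarith)
  exact absurd h5 (not_le.2 h6)

end Pool.Agent.L7h26.AA
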