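import Pool.Agent.L7h26.AA.Ext

set_option autoImplicit false

/-!
# Project AA: `C¹`-close embeddings differ by a diffeomorphism (`S_EXT → S_STEP`)
-/

open Set Filter Topology Metric
open scoped ContDiff Manifold NNReal

namespace Pool.Agent.L7h26.AA

open Pool.Agent.L7h32.AA

/-- comparison of derivatives -/
theorem slope_le {E F G : Type} [NormedAddCommGroup E] [NormedSpace ℝ E]
    [NormedAddCommGroup F] [NormedSpace ℝ F] [NormedAddCommGroup G] [NormedSpace ℝ G]
    {A : E → F} {B : E → G} {A' : E →L[ℝ] F} {B' : E →L[ℝ] G} {y : E} {c : ℝ}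
    (hA : HasFDerivAt A A' y) (hB : HasFDerivAt B B' y)
    (h : ∀ᶠ z in 𝓝 y, ‖A z - A y‖ ≤ c * ‖B z - B y‖) (v : E) : ‖A' v‖ ≤ c * ‖B' v‖ := by
  have hline : HasDerivAt (fun t : ℝ => y + t • v) v 0 := by
    have := ((hasDerivAt_id (0 : ℝ)).smul_const v).const_add y
    simpa using this
  have hA2 : HasDerivAt (fun t : ℝ => A (y + t • v)) (A' v) 0 := by
    refine HasFDerivAt.comp_hasDerivAt (0 : ℝ) (l := A) (l' := A') ?_ hline
    simpa using hA
  have hB2 : HasDerivAt (fun t : ℝ => B (y + t • v)) (B' v) 0 := by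
    refine HasFDerivAt.comp_hasDerivAt (0 : ℝ) (l := B) (l' := B') ?_ hline
    simpa using hB
  have t1 := (hA2.tendsto_slope_zero).norm
  have t2 := (hB2.tendsto_slope_zero).norm.const_mul c
  have hev : ∀ᶠ t : ℝ in 𝓝[≠] 0, ‖A (y + t • v) - A y‖ ≤ c * ‖B (y + t • v) - B y‖ := by
    refine Filter.Eventually.filter_mono nhdsWithin_le_nhds ?_
    have h1 : ∀ᶠ z in 𝓝 (y + (0 : ℝ) • v), ‖A z - A y‖ ≤ c * ‖B z - B y‖ := by simpa using h
    exact hline.continuousAt.eventually h1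
  refine le_of_tendsto_of_tendsto t1 t2 ?_
  filter_upwards [hev] with t ht
  have e1 : A (y + (0 + t) • v) = A (y + t • v) := by rw [zero_add]
  have e2 : A (y + (0 : ℝ) • v) = A y := by rw [zero_smul, add_zero]
  have e3 : B (y + (0 + t) • v) = B (y + t • v) := by rw [zero_add]
  have e4 : B (y + (0 : ℝ) • v) = B y := by rw [zero_smul, add_zero]
  rw [norm_smul, norm_smul]
  simp only [e1, e2, e3, e4]
  calc ‖t⁻¹‖ * ‖A (y + t • v) - A y‖ ≤ ‖t⁻¹‖ * (c * ‖B (y + t • v) - B y‖) :=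
        mul_le_mul_of_nonneg_left ht (norm_nonneg _)
    _ = c * (‖t⁻¹‖ * ‖B (y + t • v) - B y‖) := by ring

/-- the identity plus a compactly supported map with small derivative is a diffeomorphism -/
theorem cdiff_of_small {F : Type} [NormedAddCommGroup F] [NormedSpace ℝ F]
    [FiniteDimensional ℝ F] {u : F → F} (hu : ContDiff ℝ ∞ u)
    (hd : ∀ y, ‖fderiv ℝ u y‖ ≤ 1 / 2) {C : Set F} (hC : IsCompact C) (hC' : ∀ y, y ∉ C → u y = 0) :
    CDiff (fun y => y + u y) := by
  have hdiff : Differentiable ℝ u := hu.differentiable (by simp)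
  have hLip : LipschitzWith (1 / 2 : ℝ≥0) u := by
    refine lipschitzWith_of_nnnorm_fderiv_le hdiff fun y => ?_
    rw [← NNReal.coe_le_coe, coe_nnnorm]
    simpa using hd y
  have hap : ApproximatesLinearOn (fun y => y + u y)
      ((ContinuousLinearEquiv.refl ℝ F : F ≃L[ℝ] F) : F →L[ℝ] F) univ (1 / 2 : ℝ≥0) := by
    intro x _ y _
    have h1 := hLip.dist_le_mul x y
    rw [dist_eq_norm, dist_eq_norm] at h1
    have e1 : x + u x - (y + u y) -
        ((ContinuousLinearEquiv.refl ℝ F : F ≃L[ℝ] F) : F →L[ℝ] F) (x - y) = u x - u y := by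
      show x + u x - (y + u y) - (x - y) = u x - u y
      abel
    rw [e1]
    exact h1
  have hc : Subsingleton F ∨ (1 / 2 : ℝ≥0) <
      ‖((ContinuousLinearEquiv.refl ℝ F).symm : F →L[ℝ] F)‖₊⁻¹ := by
    rcases subsingleton_or_nontrivial F with h | h
    · exact Or.inl h
    · right
      have h1 : ‖((ContinuousLinearEquiv.refl ℝ F).symm : F →L[ℝ] F)‖₊ = 1 := by
        rw [← NNReal.coe_inj, coe_nnnorm]
        exact ContinuousLinearMap.norm_id
      rw [h1, inv_one]
      exact NNReal.half_lt_self one_ne_zero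
  let e := hap.toHomeomorph _ hc
  have he : ∀ y, e y = y + u y := fun y => rfl
  have hG : ContDiff ℝ ∞ (fun y => y + u y) := contDiff_id.add hu
  refine ⟨hG, e.symm, ?_, fun x => ?_, fun x => ?_, C, hC, fun x hx => ?_⟩
  · rw [contDiff_iff_contDiffAt]
    intro y
    have hinj : Function.Injective
        ((ContinuousLinearMap.id ℝ F + fderiv ℝ u (e.symm y)) : F →ₗ[ℝ] F) := by
      rw [← LinearMap.ker_eq_bot, LinearMap.ker_eq_bot']
      intro v hv
      have h1 : v + fderiv ℝ u (e.symm y) v = 0 := hv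
      have h2 : ‖v‖ ≤ 1 / 2 * ‖v‖ := by
        have h3 : v = -(fderiv ℝ u (e.symm y) v) := eq_neg_of_add_eq_zero_left h1
        calc ‖v‖ = ‖fderiv ℝ u (e.symm y) v‖ := by
              conv_lhs => rw [h3]
              rw [norm_neg]
          _ ≤ ‖fderiv ℝ u (e.symm y)‖ * ‖v‖ := ContinuousLinearMap.le_opNorm _ _
          _ ≤ 1 / 2 * ‖v‖ := mul_le_mul_of_nonneg_right (hd _) (norm_nonneg _)
      have h3 : ‖v‖ = 0 := by
        have := norm_nonneg v
        linarith
      exact norm_eq_zero.1 h3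
    let A : F ≃L[ℝ] F := (LinearEquiv.ofInjectiveEndo _ hinj).toContinuousLinearEquiv
    have hA : HasFDerivAt (fun y => y + u y) (A : F →L[ℝ] F) (e.symm y) := by
      have h1 : (A : F →L[ℝ] F) = ContinuousLinearMap.id ℝ F + fderiv ℝ u (e.symm y) := by
        ext v
        rfl
      rw [h1]
      exact (hasFDerivAt_id _).add (hdiff _).hasFDerivAt
    exact e.toOpenPartialHomeomorph.contDiffAt_symm (f₀' := A) (a := y) (mem_univ _) hA
      hG.contDiffAt
  · exact e.symm_apply_apply x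
  · exact e.apply_symm_apply x
  · show x + u x = x
    rw [hC' x hx, add_zero]

/-- **S_STEP.** -/
theorem s_STEP (hEXT : S_EXT) : S_STEP := by
  intro E F _ _ _ _ _ _ K U N f hR hE
  obtain ⟨p, hp, hpf⟩ := hEXT E F K U N f hR hE
  have hfc : IsCompact (f '' K) := hR.cpt.image_of_continuousOn (emb_cont hR hE.smooth)
  have hO : IsOpen (p ⁻¹' U) := hR.opn.preimage hp.continuous
  have hfO : f '' K ⊆ p ⁻¹' U := by
    rintro _ ⟨x, hx, rfl⟩
    show p (f x) ∈ U
    rw [hpf x hx]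
    exact hR.sub hx
  obtain ⟨C, hC, hfC, hCO⟩ := exists_compact_between hfc hO hfO
  obtain ⟨χ, hχ0, hχ1, hχ⟩ := exists_contMDiffMap_zero_one_of_isClosed (n := ⊤) 𝓘(ℝ, F)
    (s := (interior C)ᶜ) (t := f '' K) isOpen_interior.isClosed_compl hfc.isClosed
    (Set.disjoint_left.2 fun y hy hy' => hy (hfC hy'))
  have hχs : ContDiff ℝ ∞ χ := by
    have := χ.contMDiff
    rw [contMDiff_iff_contDiff] at this
    exact this
  have hNp : ContDiffOn ℝ ∞ (fun y => N (p y)) (p ⁻¹' U) :=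
    hR.smooth.comp hp.contDiffOn fun y hy => hy
  obtain ⟨C1, hC1⟩ := hC.exists_bound_of_continuousOn
    ((hχs.continuous_fderiv (by simp)).continuousOn (s := C))
  obtain ⟨C2, hC2⟩ := hC.exists_bound_of_continuousOn
    ((hNp.continuousOn_fderiv_of_isOpen hO (by simp)).mono hCO)
  have hpos : 0 < 2 * (|C1| + |C2| + 1) := by positivity
  refine ⟨1 / (2 * (|C1| + |C2| + 1)), by positivity, ?_⟩
  set δ : ℝ := 1 / (2 * (|C1| + |C2| + 1)) with hδ
  have hδ0 : 0 < δ := by positivity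
  have hδ1 : δ * (|C1| + |C2|) ≤ 1 / 2 := by
    rw [hδ, div_mul_eq_mul_div, one_mul, div_le_div_iff₀ hpos (by norm_num)]
    have := abs_nonneg C1
    have := abs_nonneg C2
    linarith
  intro g hg hgf
  let H : F → F := fun y => g (N (p y)) - f (N (p y))
  have hH : ContDiffOn ℝ ∞ H (p ⁻¹' U) :=
    (hg.comp hp.contDiffOn fun y hy => hy).sub (hE.smooth.comp hp.contDiffOn fun y hy => hy)
  let u : F → F := fun y => χ y • H y
  have hu0 : ∀ y, y ∉ C → u =ᶠ[𝓝 y] fun _ => 0 := by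
    intro y hy
    filter_upwards [hC.isClosed.isOpen_compl.mem_nhds hy] with z hz
    have h1 : χ z = 0 := hχ0 fun h => hz (interior_subset h)
    show χ z • H z = 0
    rw [h1, zero_smul]
  have hu : ContDiff ℝ ∞ u := by
    rw [contDiff_iff_contDiffAt]
    intro y
    by_cases hy : y ∈ C
    · exact hχs.contDiffAt.smul (hH.contDiffAt (hO.mem_nhds (hCO hy)))
    · exact contDiffAt_const.congr_of_eventuallyEq (hu0 y hy)
  have hHn : ∀ y, p y ∈ U → ‖H y‖ ≤ δ := fun y hy => hgf.1 _ (hR.maps _ hy)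
  have hHd : ∀ y, p y ∈ U → ∀ v, ‖fderiv ℝ H y v‖ ≤ δ * ‖fderiv ℝ (fun y => N (p y)) y v‖ := by
    intro y hy v
    have hy' : y ∈ p ⁻¹' U := hy
    refine slope_le ((hH.contDiffAt (hO.mem_nhds hy')).differentiableAt (by simp)).hasFDerivAt
      ((hNp.contDiffAt (hO.mem_nhds hy')).differentiableAt (by simp)).hasFDerivAt ?_ v
    filter_upwards [hO.mem_nhds hy'] with z hz
    exact hgf.2 _ (hR.maps _ hz) _ (hR.maps _ hy)
  have hd : ∀ y, ‖fderiv ℝ u y‖ ≤ 1 / 2 := by
    intro y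
    by_cases hy : y ∈ C
    · have hyU : p y ∈ U := hCO hy
      have h1 : HasFDerivAt u (χ y • fderiv ℝ H y + (fderiv ℝ χ y).smulRight (H y)) y :=
        ((hχs.differentiable (by simp)) y).hasFDerivAt.smul
          ((hH.contDiffAt (hO.mem_nhds (hCO hy))).differentiableAt (by simp)).hasFDerivAt
      rw [h1.fderiv]
      refine ContinuousLinearMap.opNorm_le_bound _ (by norm_num) fun v => ?_
      have h2 : ‖(χ y • fderiv ℝ H y + (fderiv ℝ χ y).smulRight (H y)) v‖ ≤
          ‖χ y • fderiv ℝ H y v‖ + ‖(fderiv ℝ χ y v) • H y‖ := norm_add_le _ _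
      have h3 : ‖χ y • fderiv ℝ H y v‖ ≤ δ * (|C2| * ‖v‖) := by
        rw [norm_smul]
        have e1 : ‖χ y‖ ≤ 1 := by
          rw [Real.norm_eq_abs, abs_of_nonneg (hχ y).1]
          exact (hχ y).2
        calc ‖χ y‖ * ‖fderiv ℝ H y v‖ ≤ 1 * ‖fderiv ℝ H y v‖ :=
              mul_le_mul_of_nonneg_right e1 (norm_nonneg _)
          _ = ‖fderiv ℝ H y v‖ := one_mul _
          _ ≤ δ * ‖fderiv ℝ (fun y => N (p y)) y v‖ := hHd y hyU v
          _ ≤ δ * (‖fderiv ℝ (fun y => N (p y)) y‖ * ‖v‖) :=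
              mul_le_mul_of_nonneg_left (ContinuousLinearMap.le_opNorm _ _) hδ0.le
          _ ≤ δ * (|C2| * ‖v‖) := mul_le_mul_of_nonneg_left
              (mul_le_mul_of_nonneg_right ((hC2 y hy).trans (le_abs_self _)) (norm_nonneg _)) hδ0.le
      have h4 : ‖(fderiv ℝ χ y v) • H y‖ ≤ |C1| * ‖v‖ * δ := by
        rw [norm_smul]
        refine mul_le_mul ?_ (hHn y hyU) (norm_nonneg _) (by positivity)
        exact (ContinuousLinearMap.le_opNorm _ _).trans
          (mul_le_mul_of_nonneg_right ((hC1 y hy).trans (le_abs_self _)) (norm_nonneg _))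
      calc _ ≤ δ * (|C2| * ‖v‖) + |C1| * ‖v‖ * δ := h2.trans (add_le_add h3 h4)
        _ = δ * (|C1| + |C2|) * ‖v‖ := by ring
        _ ≤ 1 / 2 * ‖v‖ := mul_le_mul_of_nonneg_right hδ1 (norm_nonneg _)
    · rw [(hu0 y hy).fderiv_eq]
      simp
  refine ⟨fun y => y + u y, cdiff_of_small hu hd hC fun y hy => (hu0 y hy).eq_of_nhds,
    fun x hx => ?_⟩
  have h1 : χ (f x) = 1 := hχ1 ⟨x, hx, rfl⟩
  show f x + χ (f x) • (g (N (p (f x))) - f (N (p (f x)))) = g x
  rw [h1, hpf x hx, hR.fix x hx, one_smul, add_sub_cancel]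

end Pool.Agent.L7h26.AA
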